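import Mathlib
import Pool.Agent.NashF.Mixed

/-!
# Linear forests: few returning edges

`cov_levels`: rows `X`, columns `K` of a loopless digraph. The outdegrees in `X` satisfy the strict
condition on `X ∩ K` and the weak condition on the rest of `X`. The indegrees in `K` satisfy the
weak condition after a reduction by `u v`: there is no reduction if `v ∉ X` or if the indegree is at
least `|K|`; if `v ∈ X` has outdegree more than `|X|` the reduction is one if `v` has an
in-neighbour in `K` outside `X`, else zero; for the remaining vertices it is larger by the number of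
in-neighbours of `v` in `X ∩ K` that lie on the level of `v`. Levels are given by any function `h`
that does not decrease along the edges inside `X ∩ K`. Then some linear forest leaves every vertex
of `X` and enters every vertex of `K`.

`cov_cycles`: strict conditions (weak on `X` outside `K` and on `K` outside `X`), and no vertex of
`X ∩ K` with outdegree at most `|X|` and indegree less than `|K|` lies on a cycle of the digraph
induced on `X ∩ K`.

Induction by contraction of edges; loops arising in a contraction are kept. First the low rows (the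
lowest row takes its lowest column), then the columns with an edge from a high row (the lowest
column takes any high row), then the remaining columns, then the remaining rows.
-/

set_option autoImplicit false

namespace Pool.Agent.NashL

open Finset Pool.Agent.NashW Pool.Agent.NashF

section loops

/-- `1` if `p` holds, else `0` -/
noncomputable def ind (p : Prop) : ℕ := by
  classical exact if p then 1 else 0

theorem ind_pos {p : Prop} (h : p) : ind p = 1 := by unfold ind; rw [if_pos h]

theorem ind_neg {p : Prop} (h : ¬ p) : ind p = 0 := by unfold ind; rw [if_neg h]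

theorem ind_le (p : Prop) : ind p ≤ 1 := by unfold ind; split_ifs <;> omega

theorem ind_mono {p q : Prop} (h : p → q) : ind p ≤ ind q := by
  by_cases hp : p
  · rw [ind_pos hp, ind_pos (h hp)]
  · rw [ind_neg hp]; exact Nat.zero_le _

theorem ind_ite (p : Prop) [Decidable p] : ind p = if p then 1 else 0 := by
  by_cases hp : p
  · rw [ind_pos hp, if_pos hp]
  · rw [ind_neg hp, if_neg hp]

variable {V : Type} {E : V → V → Prop}

/-- contraction of the edge `x → y`, loops are kept -/
def CtrL (E : V → V → Prop) (x y : V) (a b : {v : V // v ≠ y}) : Prop := E (role x y a) b.1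

theorem ctr_of_ctrL {x y : V} {a b : {v : V // v ≠ y}} (hab : a ≠ b) (h : CtrL E x y a b) :
    Ctr E x y a b := by
  refine ⟨hab, ?_⟩
  unfold CtrL at h
  by_cases ha : a.1 = x
  · rw [role_self x y a ha] at h
    exact Or.inl ⟨ha, h⟩
  · rw [role_other x y a ha] at h
    exact Or.inr ⟨ha, h⟩

theorem Cov.liftL {x y : V} (hxy : x ≠ y) (hE : E x y) {X K : Finset V}
    {X' K' : Finset {v : V // v ≠ y}}
    (hX : ∀ a : {v : V // v ≠ y}, role x y a ∈ X → a ∈ X')
    (hK : ∀ a : {v : V // v ≠ y}, a.1 ∈ K → a ∈ K')
    (h : Cov (CtrL E x y) X' K') : Cov E X K := by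
  apply Cov.lift hxy hE hX hK
  obtain ⟨F, hF, h1, h2⟩ := h
  refine ⟨F, ⟨?_, hF.fn, hF.inj, hF.ht⟩, h1, h2⟩
  intro a b hab
  exact ctr_of_ctrL (hF.ne hab) (hF.sub _ _ hab)

theorem ctrL_self {x y : V} {a : {v : V // v ≠ y}} (ha : a.1 = x) :
    CtrL E x y a a ↔ E y x := by
  unfold CtrL
  rw [role_self x y a ha, ha]

theorem ctrL_other {x y : V} {a : {v : V // v ≠ y}} (ha : a.1 ≠ x) :
    CtrL E x y a a ↔ E a.1 a.1 := by
  unfold CtrL
  rw [role_other x y a ha]

variable [Fintype V]

open Classical in
/-- the out-neighbours different from `v` -/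
noncomputable def N0 (E : V → V → Prop) (v : V) : Finset V := univ.filter (fun w => w ≠ v ∧ E v w)

theorem mem_N0 (E : V → V → Prop) (v w : V) : w ∈ N0 E v ↔ w ≠ v ∧ E v w := by
  classical
  unfold N0
  rw [Finset.mem_filter]
  exact ⟨fun h => h.2, fun h => ⟨Finset.mem_univ _, h⟩⟩

/-- outdegree without the loop -/
noncomputable def o0 (E : V → V → Prop) (v : V) : ℕ := (N0 E v).card

/-- indegree without the loop -/
noncomputable def i0 (E : V → V → Prop) (v : V) : ℕ := (N0 (fun a b => E b a) v).card

open Classical in
theorem o0_ctrL (x y : V) [Fintype {v : V // v ≠ y}] (a : {v : V // v ≠ y}) :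
    o0 E (role x y a) ≤ o0 (CtrL E x y) a + ind (E (role x y a) (if a.1 = x then x else y)) := by
  unfold o0
  have h1 : N0 E (role x y a) ⊆ ((N0 (CtrL E x y) a).image Subtype.val) ∪
        (if E (role x y a) (if a.1 = x then x else y) then {(if a.1 = x then x else y)} else ∅) := by
    intro b hb
    rw [mem_N0] at hb
    rw [Finset.mem_union]
    by_cases hby : b = (if a.1 = x then x else y)
    · right; rw [hby] at hb; rw [if_pos hb.2, hby]; simp
    · left
      by_cases hax : a.1 = x
      · rw [role_self x y a hax] at hb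
        rw [if_pos hax] at hby
        rw [Finset.mem_image]
        refine ⟨⟨b, hb.1⟩, ?_, rfl⟩
        rw [mem_N0]
        refine ⟨fun h => hby ((congrArg Subtype.val h).trans hax), ?_⟩
        unfold CtrL
        rw [role_self x y a hax]
        exact hb.2
      · rw [role_other x y a hax] at hb
        rw [if_neg hax] at hby
        rw [Finset.mem_image]
        refine ⟨⟨b, hby⟩, ?_, rfl⟩
        rw [mem_N0]
        refine ⟨fun h => hb.1 (congrArg Subtype.val h), ?_⟩
        unfold CtrL
        rw [role_other x y a hax]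
        exact hb.2
  refine le_trans (Finset.card_le_card h1) (le_trans (Finset.card_union_le _ _) ?_)
  apply Nat.add_le_add Finset.card_image_le
  by_cases h : E (role x y a) (if a.1 = x then x else y)
  · rw [if_pos h, ind_pos h]; simp
  · rw [if_neg h, ind_neg h]; simp

theorem o0_other (x y : V) [Fintype {v : V // v ≠ y}] (a : {v : V // v ≠ y}) (ha : a.1 ≠ x) :
    o0 E a.1 ≤ o0 (CtrL E x y) a + ind (E a.1 y) := by
  classical
  have := o0_ctrL (E := E) x y a
  rw [role_other x y a ha, if_neg ha] at this
  exact this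

theorem o0_self (x y : V) [Fintype {v : V // v ≠ y}] (a : {v : V // v ≠ y}) (ha : a.1 = x) :
    o0 E y ≤ o0 (CtrL E x y) a + ind (E y x) := by
  classical
  have := o0_ctrL (E := E) x y a
  rw [role_self x y a ha, if_pos ha] at this
  exact this

open Classical in
theorem i0_other (x y : V) (hxy : x ≠ y) [Fintype {v : V // v ≠ y}] (b : {v : V // v ≠ y})
    (hb : b.1 ≠ x) : i0 E b.1 ≤ i0 (CtrL E x y) b + ind (E x b.1) := by
  unfold i0
  have h1 : N0 (fun a b => E b a) b.1 ⊆
      ((N0 (fun a b => CtrL E x y b a) b).image (role x y)) ∪ (if E x b.1 then {x} else ∅) := by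
    intro a ha
    rw [mem_N0] at ha
    rw [Finset.mem_union]
    by_cases hax : a = x
    · right; rw [hax] at ha; rw [if_pos ha.2, hax]; simp
    · left
      obtain ⟨a', ha'⟩ := role_surj x y hxy a hax
      rw [Finset.mem_image]
      refine ⟨a', ?_, ha'⟩
      rw [mem_N0]
      refine ⟨?_, ?_⟩
      · rintro rfl
        rw [role_other x y a' hb] at ha'
        exact ha.1 ha'.symm
      · unfold CtrL
        rw [ha']; exact ha.2
  refine le_trans (Finset.card_le_card h1) (le_trans (Finset.card_union_le _ _) ?_)
  apply Nat.add_le_add Finset.card_image_le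
  by_cases h : E x b.1
  · rw [if_pos h, ind_pos h]; simp
  · rw [if_neg h, ind_neg h]; simp

open Classical in
theorem i0_self (x y : V) (hxy : x ≠ y) [Fintype {v : V // v ≠ y}] (b : {v : V // v ≠ y})
    (hb : b.1 = x) : i0 E x ≤ i0 (CtrL E x y) b + ind (E y x) := by
  unfold i0
  have h1 : N0 (fun a b => E b a) x ⊆
      ((N0 (fun a b => CtrL E x y b a) b).image (role x y)) ∪ (if E y x then {y} else ∅) := by
    intro a ha
    rw [mem_N0] at ha
    rw [Finset.mem_union]
    by_cases hay : a = y
    · right; rw [hay] at ha; rw [if_pos ha.2, hay]; simp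
    · left
      obtain ⟨a', ha'⟩ := role_surj x y hxy a ha.1
      rw [Finset.mem_image]
      refine ⟨a', ?_, ha'⟩
      rw [mem_N0]
      refine ⟨?_, ?_⟩
      · rintro rfl
        rw [role_self x y a' hb] at ha'
        exact hay ha'.symm
      · unfold CtrL
        rw [ha', hb]; exact ha.2
  refine le_trans (Finset.card_le_card h1) (le_trans (Finset.card_union_le _ _) ?_)
  apply Nat.add_le_add Finset.card_image_le
  by_cases h : E y x
  · rw [if_pos h, ind_pos h]; simp
  · rw [if_neg h, ind_neg h]; simp

theorem i0_le (x y : V) (hxy : x ≠ y) [Fintype {v : V // v ≠ y}] (b : {v : V // v ≠ y}) :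
    i0 E b.1 ≤ i0 (CtrL E x y) b + 1 := by
  by_cases hb : b.1 = x
  · have h1 := i0_self (E := E) x y hxy b hb
    have h2 := ind_le (E y x)
    rw [hb]
    omega
  · have h1 := i0_other (E := E) x y hxy b hb
    have h2 := ind_le (E x b.1)
    omega

theorem o0_loopless (hloop : ∀ v, ¬ E v v) (v : V) : o0 E v = od E v := by
  classical
  unfold o0 od
  congr 1
  ext w
  rw [mem_N0]
  simp only [mem_filter, mem_univ, true_and]
  exact ⟨fun h => h.2, fun h => ⟨fun e => hloop v (e ▸ h), h⟩⟩

theorem i0_loopless (hloop : ∀ v, ¬ E v v) (v : V) : i0 E v = ideg E v := by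
  classical
  unfold i0 ideg
  congr 1
  ext w
  rw [mem_N0]
  simp only [mem_filter, mem_univ, true_and]
  exact ⟨fun h => h.2, fun h => ⟨fun e => hloop v (e ▸ h), h⟩⟩

/-- the degree of a row -/
noncomputable def rr (E : V → V → Prop) (K : Finset V) (v : V) : ℕ := o0 E v + ind (v ∉ K)

theorem i0_pos {k : V} (h : 1 ≤ i0 E k) : ∃ z, z ≠ k ∧ E z k := by
  classical
  unfold i0 at h
  obtain ⟨z, hz⟩ := Finset.card_pos.mp h
  rw [mem_N0] at hz
  exact ⟨z, hz⟩

/-- rows which lose nothing, except possibly through an edge to a column -/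
theorem rr_low {K : Finset V} {z k : V} (hne : z ≠ k) (hkK : k ∈ K) [Fintype {v : V // v ≠ k}]
    (a : {v : V // v ≠ k})
    (h : ∀ w ∈ K, E (role z k a) w → role z k a = w) :
    rr E K (role z k a) ≤ rr (CtrL E z k) (rest k K) a := by
  unfold rr
  by_cases haz : a.1 = z
  · rw [role_self z k a haz] at h ⊢
    have h1 := o0_self (E := E) z k a haz
    rw [ind_neg (not_not.mpr hkK)]
    by_cases hzK : z ∈ K
    · have h2 : ¬ E k z := fun h3 => hne (h z hzK h3).symm
      rw [ind_neg h2] at h1
      omega
    · have h2 : a ∉ rest k K := by rw [mem_rest, haz]; exact hzK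
      have h3 := ind_le (E k z)
      rw [ind_pos h2]
      omega
  · rw [role_other z k a haz] at h ⊢
    have h1 := o0_other (E := E) z k a haz
    have h2 : ¬ E a.1 k := fun h3 => a.2 (h k hkK h3)
    rw [ind_neg h2] at h1
    have h3 : ind (a.1 ∉ K) ≤ ind (a ∉ rest k K) := ind_mono (by rw [mem_rest]; exact id)
    omega

/-- every row loses at most one -/
theorem rr_le {K : Finset V} {z k : V} (hkK : k ∈ K) [Fintype {v : V // v ≠ k}]
    (a : {v : V // v ≠ k}) :
    rr E K (role z k a) ≤ rr (CtrL E z k) (rest k K) a + 1 := by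
  unfold rr
  by_cases haz : a.1 = z
  · rw [role_self z k a haz]
    have h1 := o0_self (E := E) z k a haz
    rw [ind_neg (not_not.mpr hkK)]
    have h3 := ind_le (E k z)
    omega
  · rw [role_other z k a haz]
    have h1 := o0_other (E := E) z k a haz
    have h2 := ind_le (E a.1 k)
    have h3 : ind (a.1 ∉ K) ≤ ind (a ∉ rest k K) := ind_mono (by rw [mem_rest]; exact id)
    omega

end loops

open Classical in
/-- no edge (except loops) from a row to a column -/
theorem cov_cols_loops : ∀ (n : ℕ) (V : Type) [Fintype V] (E : V → V → Prop) (X K : Finset V),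
    Fintype.card V = n → Strict (rr E K) X → Weak (i0 E) K →
    (∀ x ∈ X, ∀ k ∈ K, E x k → x = k) → Cov E X K := by
  intro n
  induction n using Nat.strong_induction_on with
  | _ n ih =>
  intro V _ E X K hcard hX hK hno
  by_cases hKe : K = ∅
  · subst hKe
    have h1 : Cov (fun a b => b ≠ a ∧ E a b) X ∅ := by
      apply cov_tails (Fintype.card V) V _ X rfl (fun v h => h.1 rfl)
      intro i
      have h2 := hX (i + 1)
      have h3 : (X.filter (fun v => od (fun a b => b ≠ a ∧ E a b) v ≤ i)) ⊆
          (X.filter (fun v => rr E ∅ v ≤ i + 1)) := by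
        intro v hv
        rw [Finset.mem_filter] at hv ⊢
        refine ⟨hv.1, ?_⟩
        have h4 : o0 E v = od (fun a b => b ≠ a ∧ E a b) v := by
          unfold o0 od
          congr 1
          ext w
          rw [mem_N0]
          simp
        have h5 := ind_le (v ∉ (∅ : Finset V))
        have h6 : rr E ∅ v = o0 E v + ind (v ∉ (∅ : Finset V)) := rfl
        omega
      have := Finset.card_le_card h3
      omega
    obtain ⟨F, hF, h2, h3⟩ := h1
    exact ⟨F, hF.mono (fun a b h => h.2), h2, h3⟩
  obtain ⟨k, hkK, hmin⟩ := Finset.exists_min_image K (i0 E)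
    (Finset.nonempty_iff_ne_empty.mpr hKe)
  have hpos : 1 ≤ i0 E k := by
    by_contra hcon
    have h0 := hK 0
    have : k ∈ K.filter (fun v => i0 E v ≤ 0) := by
      rw [Finset.mem_filter]; exact ⟨hkK, by omega⟩
    have := Finset.card_pos.mpr ⟨k, this⟩
    omega
  obtain ⟨z, hne, hzk⟩ := i0_pos hpos
  have hzX : z ∉ X := fun h => hne (hno z h k hkK hzk)
  have hc' := card_ctr (V := V) k
  apply Cov.liftL hne hzk (X' := pre z k X) (K' := rest k K)
  · intro a ha; rw [mem_pre]; exact ha
  · intro a ha; rw [mem_rest]; exact ha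
  apply ih (Fintype.card {v : V // v ≠ k}) (by omega) _ _ _ _ rfl
  · -- rows
    rw [lev_strict] at hX ⊢
    apply lev_drop 1 0 (rr E K) _ X ∅ _ (role z k) (role_inj z k) hX (Finset.empty_subset _)
    · intro a _ h
      simp at h
    · intro a ha
      rw [mem_pre] at ha
      right
      refine ⟨ha, ?_⟩
      have h1 := rr_low hne hkK a (hno _ ha)
      omega
  · -- columns
    rw [lev_weak] at hK ⊢
    apply lev_drop 0 0 (i0 E) _ K {k} _ Subtype.val Subtype.val_injective hK
      (Finset.singleton_subset_iff.mpr hkK)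
    · intro a _ h
      rw [Finset.mem_singleton] at h
      exact a.2 h
    · intro b hb
      rw [mem_rest] at hb
      right
      refine ⟨hb, ?_⟩
      have h1 := i0_le (E := E) z k hne b
      have h4 : 1 ≤ (({k} : Finset V).filter (fun z => i0 E z ≤ i0 E b.1)).card :=
        one_le_fil (z := k) (Finset.mem_singleton_self k) (hmin _ hb)
      omega
  · intro a ha b hb hab
    rw [mem_pre] at ha
    rw [mem_rest] at hb
    unfold CtrL at hab
    have h1 := hno _ ha _ hb hab
    by_cases haz : a.1 = z
    · rw [role_self z k a haz] at h1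
      exact absurd h1.symm b.2
    · rw [role_other z k a haz] at h1
      exact Subtype.ext h1

section levels

variable {V : Type} [Fintype V]

/-- some vertex of `K` outside `X` is an in-neighbour of `v` -/
def Out (E : V → V → Prop) (X K : Finset V) (v : V) : Prop := ∃ e ∈ K, e ∉ X ∧ E e v

theorem out_ctrL {E : V → V → Prop} {X K : Finset V} {x k : V} (hkK : k ∈ K)
    [Fintype {v : V // v ≠ k}] (b : {v : V // v ≠ k})
    (h : Out (CtrL E x k) (pre x k X) (rest k K) b) : Out E X K b.1 := by
  obtain ⟨e, heK, heX, heb⟩ := h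
  refine ⟨role x k e, ?_, fun h => heX ((mem_pre x k X e).mpr h), heb⟩
  rw [mem_rest] at heK
  by_cases hex : e.1 = x
  · rw [role_self x k e hex]; exact hkK
  · rw [role_other x k e hex]; exact heK

open Classical in
/-- the degree of a column in the second phase -/
noncomputable def c2 (E : V → V → Prop) (X K G : Finset V) (v : V) : ℕ :=
  if v ∈ G then i0 E v + 1 else i0 E v + 1 - (if v ∈ X then ind (Out E X K v) else 0)

theorem c2_G {E : V → V → Prop} {X K G : Finset V} {v : V} (hv : v ∈ G) :
    c2 E X K G v = i0 E v + 1 := by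
  unfold c2; rw [if_pos hv]

theorem c2_X {E : V → V → Prop} {X K G : Finset V} {v : V} (hv : v ∉ G) (hX : v ∈ X) :
    c2 E X K G v = i0 E v + 1 - ind (Out E X K v) := by
  unfold c2; rw [if_neg hv, if_pos hX]

theorem c2_nX {E : V → V → Prop} {X K G : Finset V} {v : V} (hv : v ∉ G) (hX : v ∉ X) :
    c2 E X K G v = i0 E v + 1 := by
  unfold c2; rw [if_neg hv, if_neg hX]; rfl

end levels

open Classical in
/-- no edge (except loops) from a low row to a column -/
theorem cov_mid : ∀ (n : ℕ) (V : Type) [Fintype V] (E : V → V → Prop) (X K H G : Finset V),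
    Fintype.card V = n → Strict (rr E K) X → (∀ x ∈ X, x ∈ H → X.card + 1 ≤ rr E K x) →
    Strict (c2 E X K G) K → (∀ v ∈ K, v ∈ G → K.card ≤ i0 E v) →
    (∀ x ∈ X, x ∉ H → ∀ k ∈ K, E x k → x = k) → Cov E X K := by
  intro n
  induction n using Nat.strong_induction_on with
  | _ n ih =>
  intro V _ E X K H G hcard hX hH hK hG hno
  by_cases hex : ∃ k ∈ K, ∃ z ∈ X, E z k ∧ z ≠ k
  swap
  · push Not at hex
    apply cov_cols_loops (Fintype.card V) V E X K rfl hX _ (fun x hx k hk hxk => hex k hk x hx hxk)
    intro i
    have h1 := hK (i + 1)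
    have h2 : (K.filter (fun v => i0 E v ≤ i)) ⊆ (K.filter (fun v => c2 E X K G v ≤ i + 1)) := by
      intro v hv
      rw [Finset.mem_filter] at hv ⊢
      refine ⟨hv.1, ?_⟩
      by_cases hvG : v ∈ G
      · rw [c2_G hvG]; omega
      · by_cases hvX : v ∈ X
        · rw [c2_X hvG hvX]; omega
        · rw [c2_nX hvG hvX]; omega
    have := Finset.card_le_card h2
    omega
  obtain ⟨k₀, hk₀, hz₀⟩ := hex
  obtain ⟨k, hkf, hkmin⟩ := Finset.exists_min_image
    (K.filter (fun k => ∃ z ∈ X, E z k ∧ z ≠ k)) (c2 E X K G)
    ⟨k₀, by rw [Finset.mem_filter]; exact ⟨hk₀, hz₀⟩⟩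
  rw [Finset.mem_filter] at hkf
  obtain ⟨hkK, z, hzX, hzk, hne⟩ := hkf
  have hcol : ∀ w ∈ K, (∃ z ∈ X, E z w ∧ z ≠ w) → c2 E X K G k ≤ c2 E X K G w := by
    intro w hw hw'
    exact hkmin w (by rw [Finset.mem_filter]; exact ⟨hw, hw'⟩)
  have hc' := card_ctr (V := V) k
  have hcK : (rest k K).card + 1 = K.card := by
    rw [card_rest, Finset.card_erase_of_mem hkK]
    have := Finset.card_pos.mpr ⟨k, hkK⟩
    omega
  have hcX : (pre z k X).card + 1 = X.card := by
    rw [card_pre z k hne X, Finset.card_erase_of_mem hzX]
    have := Finset.card_pos.mpr ⟨z, hzX⟩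
    omega
  apply Cov.liftL hne hzk (X' := pre z k X) (K' := rest k K)
  · intro a ha; rw [mem_pre]; exact ha
  · intro a ha; rw [mem_rest]; exact ha
  have hH' : ∀ a ∈ pre z k X, a ∈ pre z k H →
      (pre z k X).card + 1 ≤ rr (CtrL E z k) (rest k K) a := by
    intro a ha haH
    rw [mem_pre] at ha haH
    have h1 := hH _ ha haH
    have h2 := rr_le (E := E) (z := z) hkK a
    omega
  apply ih (Fintype.card {v : V // v ≠ k}) (by omega) _ _ (pre z k X) (rest k K) (pre z k H)
    (univ.filter (fun a => a.1 ∈ G)) rfl _ hH'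
  · -- columns
    rw [lev_strict] at hK ⊢
    apply lev_drop 1 0 (c2 E X K G) _ K {k} _ Subtype.val Subtype.val_injective hK
      (Finset.singleton_subset_iff.mpr hkK)
    · intro a _ h
      rw [Finset.mem_singleton] at h
      exact a.2 h
    · intro b hb
      have hbK : b.1 ∈ K := (mem_rest k K b).mp hb
      have h1 := i0_le (E := E) z k hne b
      by_cases hbG : b.1 ∈ G
      · left
        have hbG' : b ∈ (univ.filter (fun a : {v : V // v ≠ k} => a.1 ∈ G)) := by
          rw [Finset.mem_filter]
          exact ⟨Finset.mem_univ _, hbG⟩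
        rw [c2_G hbG']
        have h2 := hG b.1 hbK hbG
        omega
      have hbG' : b ∉ (univ.filter (fun a : {v : V // v ≠ k} => a.1 ∈ G)) := by
        rw [Finset.mem_filter]
        exact fun h => hbG h.2
      right
      refine ⟨hbK, ?_⟩
      have hout := ind_mono (out_ctrL (E := E) (X := X) (K := K) (x := z) hkK b)
      have hfil : (∃ z ∈ X, E z b.1 ∧ z ≠ b.1) →
          1 ≤ (({k} : Finset V).filter (fun z => c2 E X K G z ≤ c2 E X K G b.1)).card :=
        fun h => one_le_fil (z := k) (Finset.mem_singleton_self k) (hcol b.1 hbK h)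
      by_cases hbz : b.1 = z
      · -- the column of `z`
        have hbX : b.1 ∈ X := by rw [hbz]; exact hzX
        have h2 : i0 E b.1 ≤ i0 (CtrL E z k) b + ind (E k b.1) := by
          have := i0_self (E := E) z k hne b hbz
          rw [hbz]; exact this
        rw [c2_X hbG hbX] at hfil ⊢
        by_cases hkz : E k b.1
        · rw [ind_pos hkz] at h2
          by_cases hkX : k ∈ X
          · have h3 := hfil ⟨k, hkX, hkz, by rw [hbz]; exact hne.symm⟩
            have hbX' : b ∈ pre z k X := by
              rw [mem_pre, role_self z k b hbz]; exact hkX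
            rw [c2_X hbG' hbX']
            omega
          · have hbX' : b ∉ pre z k X := by
              rw [mem_pre, role_self z k b hbz]; exact hkX
            have hO : Out E X K b.1 := ⟨k, hkK, hkX, hkz⟩
            rw [c2_nX hbG' hbX', ind_pos hO]
            omega
        · rw [ind_neg hkz] at h2
          by_cases hbX' : b ∈ pre z k X
          · rw [c2_X hbG' hbX']
            omega
          · rw [c2_nX hbG' hbX']
            omega
      · have h2 := i0_other (E := E) z k hne b hbz
        by_cases hbX : b.1 ∈ X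
        · have hbX' : b ∈ pre z k X := by
            rw [mem_pre, role_other z k b hbz]; exact hbX
          rw [c2_X hbG' hbX']
          rw [c2_X hbG hbX] at hfil ⊢
          by_cases hzb : E z b.1
          · have h3 := hfil ⟨z, hzX, hzb, fun h => hbz h.symm⟩
            rw [ind_pos hzb] at h2
            omega
          · rw [ind_neg hzb] at h2
            omega
        · have hbX' : b ∉ pre z k X := by
            rw [mem_pre, role_other z k b hbz]; exact hbX
          rw [c2_nX hbG' hbX']
          rw [c2_nX hbG hbX] at hfil ⊢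
          by_cases hzb : E z b.1
          · have h3 := hfil ⟨z, hzX, hzb, fun h => hbz h.symm⟩
            rw [ind_pos hzb] at h2
            omega
          · rw [ind_neg hzb] at h2
            omega
  · intro b hb hbG
    rw [Finset.mem_filter] at hbG
    have hbK : b.1 ∈ K := (mem_rest k K b).mp hb
    have h1 := i0_le (E := E) z k hne b
    have h2 := hG b.1 hbK hbG.2
    omega
  · intro a ha haH b hb hab
    rw [mem_pre] at ha haH
    rw [mem_rest] at hb
    unfold CtrL at hab
    have h1 := hno _ ha haH _ hb hab
    by_cases haz : a.1 = z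
    · rw [role_self z k a haz] at h1
      exact absurd h1.symm b.2
    · rw [role_other z k a haz] at h1
      exact Subtype.ext h1
  · -- rows
    rw [lev_strict] at hX ⊢
    apply lev_drop 1 0 (rr E K) _ X ∅ _ (role z k) (role_inj z k) hX (Finset.empty_subset _)
    · intro a _ h
      simp at h
    · intro a ha
      by_cases haH : a ∈ pre z k H
      · left; exact hH' a ha haH
      · right
        rw [mem_pre] at ha haH
        refine ⟨ha, ?_⟩
        have h1 := rr_low hne hkK a (hno _ ha haH)
        omega

section main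

variable {V : Type} [Fintype V]

open Classical in
/-- the low in-neighbours of `v` in `X ∩ K` on the level of `v` -/
noncomputable def backL (E : V → V → Prop) (X K H : Finset V) (h : V → ℕ) (v : V) : Finset V :=
  univ.filter (fun z => z ∈ X ∧ z ∉ H ∧ z ∈ K ∧ E z v ∧ h z = h v)

theorem mem_backL (E : V → V → Prop) (X K H : Finset V) (h : V → ℕ) (v z : V) :
    z ∈ backL E X K H h v ↔ z ∈ X ∧ z ∉ H ∧ z ∈ K ∧ E z v ∧ h z = h v := by
  classical
  unfold backL
  rw [Finset.mem_filter]
  exact ⟨fun h => h.2, fun h => ⟨Finset.mem_univ _, h⟩⟩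

/-- some high vertex of `X ∩ K` on the level of `v` is an in-neighbour of `v` -/
def OutH (E : V → V → Prop) (X K H : Finset V) (h : V → ℕ) (v : V) : Prop :=
  ∃ y ∈ X, y ∈ H ∧ y ∈ K ∧ E y v ∧ h y = h v

open Classical in
/-- number of possible losses of the column `v` -/
noncomputable def uu (E : V → V → Prop) (X K H : Finset V) (h : V → ℕ) (v : V) : ℕ :=
  if v ∈ X then
    (if v ∈ H then ind (E v v) + ind (Out E X K v)
      else (backL E X K H h v).card + ind (OutH E X K H h v) + ind (Out E X K v))
  else ind (E v v)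

theorem uu_nX {E : V → V → Prop} {X K H : Finset V} {h : V → ℕ} {v : V} (hX : v ∉ X) :
    uu E X K H h v = ind (E v v) := by
  unfold uu; rw [if_neg hX]

theorem uu_H {E : V → V → Prop} {X K H : Finset V} {h : V → ℕ} {v : V} (hX : v ∈ X)
    (hH : v ∈ H) : uu E X K H h v = ind (E v v) + ind (Out E X K v) := by
  unfold uu; rw [if_pos hX, if_pos hH]

theorem uu_L {E : V → V → Prop} {X K H : Finset V} {h : V → ℕ} {v : V} (hX : v ∈ X)
    (hH : v ∉ H) : uu E X K H h v =
      (backL E X K H h v).card + ind (OutH E X K H h v) + ind (Out E X K v) := by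
  unfold uu; rw [if_pos hX, if_neg hH]

open Classical in
/-- the degree of a column in the first phase -/
noncomputable def c1 (E : V → V → Prop) (X K H G : Finset V) (h : V → ℕ) (v : V) : ℕ :=
  if v ∈ G then i0 E v + 1 else i0 E v + ind (E v v) + 1 - uu E X K H h v

theorem c1_G {E : V → V → Prop} {X K H G : Finset V} {h : V → ℕ} {v : V} (hv : v ∈ G) :
    c1 E X K H G h v = i0 E v + 1 := by
  unfold c1; rw [if_pos hv]

theorem c1_nG {E : V → V → Prop} {X K H G : Finset V} {h : V → ℕ} {v : V} (hv : v ∉ G) :
    c1 E X K H G h v = i0 E v + ind (E v v) + 1 - uu E X K H h v := by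
  unfold c1; rw [if_neg hv]

theorem loop_le_backL {E : V → V → Prop} {X K H : Finset V} {h : V → ℕ} {v : V} (hX : v ∈ X)
    (hH : v ∉ H) (hK : v ∈ K) : ind (E v v) ≤ (backL E X K H h v).card := by
  by_cases hl : E v v
  · rw [ind_pos hl]
    exact Finset.card_pos.mpr ⟨v, (mem_backL _ _ _ _ _ _ _).mpr ⟨hX, hH, hK, hl, rfl⟩⟩
  · rw [ind_neg hl]; exact Nat.zero_le _

theorem c1_le_c2 (E : V → V → Prop) (X K H G : Finset V) (h : V → ℕ) (v : V) (hK : v ∈ K) :
    c1 E X K H G h v ≤ c2 E X K G v := by
  by_cases hG : v ∈ G
  · rw [c1_G hG, c2_G hG]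
  rw [c1_nG hG]
  by_cases hX : v ∈ X
  · rw [c2_X hG hX]
    by_cases hH : v ∈ H
    · rw [uu_H hX hH]; omega
    · rw [uu_L hX hH]
      have := loop_le_backL (E := E) (h := h) hX hH hK
      omega
  · rw [c2_nX hG hX, uu_nX hX]; omega

end main

open Classical in
theorem cov_main : ∀ (n : ℕ) (V : Type) [Fintype V] (E : V → V → Prop) (X K H G : Finset V)
    (h : V → ℕ), Fintype.card V = n → Strict (rr E K) X →
    (∀ x ∈ X, x ∈ H → X.card + 1 ≤ rr E K x) →
    Strict (c1 E X K H G h) K → (∀ v ∈ K, v ∈ G → K.card ≤ i0 E v) →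
    (∀ a b, a ∈ X → a ∈ K → b ∈ X → b ∈ K → E a b → h a ≤ h b) → Cov E X K := by
  intro n
  induction n using Nat.strong_induction_on with
  | _ n ih =>
  intro V _ E X K H G h hcard hX hH hK hG hlev
  by_cases hex : ∃ x ∈ X, x ∉ H ∧ ∃ k ∈ K, E x k ∧ x ≠ k
  swap
  · push Not at hex
    apply cov_mid (Fintype.card V) V E X K H G rfl hX hH _ hG hex
    intro i
    refine le_trans (Finset.card_le_card ?_) (hK i)
    intro v hv
    rw [Finset.mem_filter] at hv ⊢
    exact ⟨hv.1, le_trans (c1_le_c2 E X K H G h v hv.1) hv.2⟩
  -- the lowest row with an edge to a column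
  obtain ⟨x₀, hx₀, hx₀H, hk₀⟩ := hex
  obtain ⟨x, hxf, hxmin⟩ := Finset.exists_min_image
    (X.filter (fun x => x ∉ H ∧ ∃ k ∈ K, E x k ∧ x ≠ k)) (rr E K)
    ⟨x₀, by rw [Finset.mem_filter]; exact ⟨hx₀, hx₀H, hk₀⟩⟩
  rw [Finset.mem_filter] at hxf
  obtain ⟨hxX, hxH, k₁, hk₁, hxk₁⟩ := hxf
  obtain ⟨k, hkf, hkmin⟩ := Finset.exists_min_image
    (K.filter (fun k => E x k ∧ x ≠ k)) (c1 E X K H G h)
    ⟨k₁, by rw [Finset.mem_filter]; exact ⟨hk₁, hxk₁⟩⟩
  rw [Finset.mem_filter] at hkf
  obtain ⟨hkK, hxk, hne⟩ := hkf
  have hrow : ∀ z ∈ X, z ∉ H → (∃ k ∈ K, E z k ∧ z ≠ k) → rr E K x ≤ rr E K z := by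
    intro z hz hz' hz''
    exact hxmin z (by rw [Finset.mem_filter]; exact ⟨hz, hz', hz''⟩)
  have hcol : ∀ w ∈ K, E x w → x ≠ w → c1 E X K H G h k ≤ c1 E X K H G h w := by
    intro w hw hxw hxw'
    exact hkmin w (by rw [Finset.mem_filter]; exact ⟨hw, hxw, hxw'⟩)
  have hc' := card_ctr (V := V) k
  have hcK : (rest k K).card + 1 = K.card := by
    rw [card_rest, Finset.card_erase_of_mem hkK]
    have := Finset.card_pos.mpr ⟨k, hkK⟩
    omega
  have hcX : (pre x k X).card + 1 = X.card := by
    rw [card_pre x k hne X, Finset.card_erase_of_mem hxX]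
    have := Finset.card_pos.mpr ⟨x, hxX⟩
    omega
  -- `b ∈ X'` implies `b.1 ∈ X`
  have hbX : ∀ b : {v : V // v ≠ k}, b ∈ pre x k X → b.1 ∈ X := by
    intro b hb
    rw [mem_pre] at hb
    by_cases hbx : b.1 = x
    · rw [hbx]; exact hxX
    · rw [role_other x k b hbx] at hb; exact hb
  have hrK : ∀ a : {v : V // v ≠ k}, a ∈ rest k K → role x k a ∈ K := by
    intro a ha
    rw [mem_rest] at ha
    by_cases hax : a.1 = x
    · rw [role_self x k a hax]; exact hkK
    · rw [role_other x k a hax]; exact ha
  -- levels of in-neighbours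
  have hhr : ∀ a b : {v : V // v ≠ k}, a ∈ pre x k X → a ∈ rest k K → b ∈ pre x k X →
      b ∈ rest k K → CtrL E x k a b → h a.1 ≤ h (role x k a) ∧ h (role x k a) ≤ h b.1 := by
    intro a b ha ha' hb hb' hab
    have hbX' := hbX b hb
    have hrK' := hrK a ha'
    rw [mem_pre] at ha
    rw [mem_rest] at ha' hb'
    unfold CtrL at hab
    refine ⟨?_, hlev _ _ ha hrK' hbX' hb' hab⟩
    by_cases hax : a.1 = x
    · rw [role_self x k a hax] at ha ⊢
      rw [hax] at ha' ⊢
      exact hlev _ _ hxX ha' ha hkK hxk
    · rw [role_other x k a hax]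
  -- comparison of `uu`
  have huu : ∀ b ∈ rest k K, uu (CtrL E x k) (pre x k X) (rest k K) (pre x k H)
      (fun a => h a.1) b + ind (b.1 = x ∧ E x x) ≤ uu E X K H h b.1 := by
    intro b hb
    have hbK : b.1 ∈ K := (mem_rest k K b).mp hb
    have hout := ind_mono (out_ctrL (E := E) (X := X) (K := K) (x := x) hkK b)
    by_cases hbX' : b ∈ pre x k X
    · have hbX2 := hbX b hbX'
      by_cases hbH' : b ∈ pre x k H
      · rw [uu_H hbX' hbH']
        by_cases hbx : b.1 = x
        · rw [mem_pre, role_self x k b hbx] at hbX' hbH'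
          rw [uu_L hbX2 (by rw [hbx]; exact hxH)]
          have h1 : ind (CtrL E x k b b) ≤ ind (OutH E X K H h b.1) := by
            apply ind_mono
            intro h2
            rw [ctrL_self hbx] at h2
            rw [hbx]
            have hxK : x ∈ K := hbx ▸ hbK
            have h3 := hlev x k hxX hxK hbX' hkK hxk
            have h4 := hlev k x hbX' hkK hxX hxK h2
            exact ⟨k, hbX', hbH', hkK, h2, le_antisymm h4 h3⟩
          have h2 : ind (b.1 = x ∧ E x x) ≤ (backL E X K H h b.1).card := by
            refine le_trans (ind_mono ?_)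
              (loop_le_backL (E := E) (h := h) hbX2 (by rw [hbx]; exact hxH) hbK)
            rintro ⟨h3, h4⟩
            rw [h3]; exact h4
          omega
        · rw [mem_pre, role_other x k b hbx] at hbH'
          rw [uu_H hbX2 hbH', ind_neg (fun h : b.1 = x ∧ E x x => hbx h.1)]
          have h1 : ind (CtrL E x k b b) ≤ ind (E b.1 b.1) :=
            ind_mono (fun h2 => (ctrL_other hbx).mp h2)
          omega
      · have hbH2 : b.1 ∉ H := by
          by_cases hbx : b.1 = x
          · rw [hbx]; exact hxH
          · rw [mem_pre, role_other x k b hbx] at hbH'; exact hbH'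
        rw [uu_L hbX' hbH', uu_L hbX2 hbH2]
        have h1 : ind (OutH (CtrL E x k) (pre x k X) (rest k K) (pre x k H) (fun a => h a.1) b) ≤
            ind (OutH E X K H h b.1) := by
          apply ind_mono
          rintro ⟨y, hyX, hyH, hyK, hyb, hhy⟩
          have h5 := hhr y b hyX hyK hbX' hb hyb
          have h6 : h y.1 = h b.1 := hhy
          rw [mem_pre] at hyH
          exact ⟨role x k y, (mem_pre x k X y).mp hyX, hyH, hrK y hyK, hyb, by omega⟩
        have h2 : (backL (CtrL E x k) (pre x k X) (rest k K) (pre x k H)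
            (fun a => h a.1) b).card + ind (b.1 = x ∧ E x x) ≤ (backL E X K H h b.1).card := by
          have h3 : (backL (CtrL E x k) (pre x k X) (rest k K) (pre x k H)
              (fun a => h a.1) b).image (role x k) ⊆ (backL E X K H h b.1).erase x := by
            intro z hz
            rw [Finset.mem_image] at hz
            obtain ⟨a, ha, rfl⟩ := hz
            rw [mem_backL] at ha
            rw [Finset.mem_erase, mem_backL]
            obtain ⟨ha1, ha2, ha3, ha4, ha5⟩ := ha
            have h5 := hhr a b ha1 ha3 hbX' hb ha4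
            have h6 : h a.1 = h b.1 := ha5
            rw [mem_pre] at ha2
            exact ⟨role_ne x k hne a, (mem_pre x k X a).mp ha1, ha2, hrK a ha3, ha4, by omega⟩
          have h4 := Finset.card_le_card h3
          rw [Finset.card_image_of_injective _ (role_inj x k)] at h4
          by_cases h5 : b.1 = x ∧ E x x
          · rw [ind_pos h5]
            have h6 : x ∈ backL E X K H h b.1 := by
              rw [mem_backL, h5.1]
              exact ⟨hxX, hxH, h5.1 ▸ hbK, h5.2, rfl⟩
            rw [Finset.card_erase_of_mem h6] at h4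
            have := Finset.card_pos.mpr ⟨x, h6⟩
            omega
          · rw [ind_neg h5]
            exact le_trans h4 (Finset.card_le_card (Finset.erase_subset _ _))
        omega
    · rw [uu_nX hbX']
      rw [mem_pre] at hbX'
      by_cases hbx : b.1 = x
      · rw [role_self x k b hbx] at hbX'
        have hbX2 : b.1 ∈ X := by rw [hbx]; exact hxX
        have hbH2 : b.1 ∉ H := by rw [hbx]; exact hxH
        rw [uu_L hbX2 hbH2]
        have h1 : ind (CtrL E x k b b) ≤ ind (Out E X K b.1) := by
          apply ind_mono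
          intro h2
          rw [ctrL_self hbx] at h2
          rw [hbx]
          exact ⟨k, hkK, hbX', h2⟩
        have h2 : ind (b.1 = x ∧ E x x) ≤ (backL E X K H h b.1).card := by
          refine le_trans (ind_mono ?_) (loop_le_backL (E := E) (h := h) hbX2 hbH2 hbK)
          rintro ⟨h3, h4⟩
          rw [h3]; exact h4
        omega
      · rw [role_other x k b hbx] at hbX'
        rw [uu_nX hbX', ind_neg (fun h : b.1 = x ∧ E x x => hbx h.1)]
        have h1 : ind (CtrL E x k b b) ≤ ind (E b.1 b.1) :=
          ind_mono (fun h2 => (ctrL_other hbx).mp h2)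
        omega
  have hH' : ∀ a ∈ pre x k X, a ∈ pre x k H →
      (pre x k X).card + 1 ≤ rr (CtrL E x k) (rest k K) a := by
    intro a ha haH
    rw [mem_pre] at ha haH
    have h1 := hH _ ha haH
    have h2 := rr_le (E := E) (z := x) hkK a
    omega
  apply Cov.liftL hne hxk (X' := pre x k X) (K' := rest k K)
  · intro a ha; rw [mem_pre]; exact ha
  · intro a ha; rw [mem_rest]; exact ha
  apply ih (Fintype.card {v : V // v ≠ k}) (by omega) _ _ (pre x k X) (rest k K) (pre x k H)
    (univ.filter (fun a => a.1 ∈ G)) (fun a => h a.1) rfl _ hH'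
  · -- columns
    rw [lev_strict] at hK ⊢
    apply lev_drop 1 0 (c1 E X K H G h) _ K {k} _ Subtype.val Subtype.val_injective hK
      (Finset.singleton_subset_iff.mpr hkK)
    · intro a _ h
      rw [Finset.mem_singleton] at h
      exact a.2 h
    · intro b hb
      have hbK : b.1 ∈ K := (mem_rest k K b).mp hb
      by_cases hbG : b.1 ∈ G
      · left
        have h1 := i0_le (E := E) x k hne b
        have hbG' : b ∈ (univ.filter (fun a : {v : V // v ≠ k} => a.1 ∈ G)) := by
          rw [Finset.mem_filter]
          exact ⟨Finset.mem_univ _, hbG⟩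
        rw [c1_G hbG']
        have h2 := hG b.1 hbK hbG
        omega
      have hbG' : b ∉ (univ.filter (fun a : {v : V // v ≠ k} => a.1 ∈ G)) := by
        rw [Finset.mem_filter]
        exact fun h => hbG h.2
      right
      refine ⟨hbK, ?_⟩
      have h2 := huu b hb
      have hfil := hcol b.1 hbK
      rw [c1_nG hbG] at hfil ⊢
      rw [c1_nG hbG']
      by_cases hbx : b.1 = x
      · -- the column of `x`
        have h1 : i0 E b.1 ≤ i0 (CtrL E x k) b + ind (E k x) := by
          have := i0_self (E := E) x k hne b hbx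
          rw [hbx]; exact this
        have h3 : ind (CtrL E x k b b) = ind (E k x) := by
          apply le_antisymm
          · exact ind_mono (ctrL_self hbx).mp
          · exact ind_mono (ctrL_self hbx).mpr
        have h4 : ind (E b.1 b.1) ≤ ind (b.1 = x ∧ E x x) := by
          apply ind_mono
          intro h5
          rw [hbx] at h5
          exact ⟨hbx, h5⟩
        omega
      · have h1 := i0_other (E := E) x k hne b hbx
        have h3 : ind (E b.1 b.1) ≤ ind (CtrL E x k b b) := ind_mono (ctrL_other hbx).mpr
        by_cases hxb : E x b.1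
        · have h4 := hfil hxb (fun h => hbx h.symm)
          have h5 : 1 ≤ (({k} : Finset V).filter (fun z => c1 E X K H G h z ≤
              i0 E b.1 + ind (E b.1 b.1) + 1 - uu E X K H h b.1)).card :=
            one_le_fil (z := k) (Finset.mem_singleton_self k) h4
          have h6 := ind_le (E x b.1)
          omega
        · rw [ind_neg hxb] at h1
          omega
  · intro b hb hbG
    rw [Finset.mem_filter] at hbG
    have hbK : b.1 ∈ K := (mem_rest k K b).mp hb
    have h1 := i0_le (E := E) x k hne b
    have h2 := hG b.1 hbK hbG.2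
    omega
  · intro a b ha ha' hb hb' hab
    have := hhr a b ha ha' hb hb' hab
    exact le_trans this.1 this.2
  · -- rows
    rw [lev_strict] at hX ⊢
    apply lev_drop 1 0 (rr E K) _ X {x} _ (role x k) (role_inj x k) hX
      (Finset.singleton_subset_iff.mpr hxX)
    · intro a _ h
      rw [Finset.mem_singleton] at h
      exact role_ne x k hne a h
    · intro a ha
      by_cases haH : a ∈ pre x k H
      · left; exact hH' a ha haH
      right
      rw [mem_pre] at ha haH
      refine ⟨ha, ?_⟩
      have hfil : (∃ w ∈ K, E (role x k a) w ∧ role x k a ≠ w) →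
          1 ≤ (({x} : Finset V).filter (fun z => rr E K z ≤ rr E K (role x k a))).card := by
        intro h
        exact one_le_fil (z := x) (Finset.mem_singleton_self x) (hrow _ ha haH h)
      by_cases hno : ∀ w ∈ K, E (role x k a) w → role x k a = w
      · have h1 := rr_low hne hkK a hno
        omega
      · push Not at hno
        obtain ⟨w, hwK, hw1, hw2⟩ := hno
        have h1 := hfil ⟨w, hwK, hw1, hw2⟩
        have h2 := rr_le (E := E) (z := x) hkK a
        omega

open Classical in
/-- the in-neighbours of `v` in `X ∩ K` on the level of `v` -/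
noncomputable def back {V : Type} [Fintype V] (E : V → V → Prop) (X K : Finset V) (h : V → ℕ)
    (v : V) : Finset V := univ.filter (fun z => z ∈ X ∧ z ∈ K ∧ E z v ∧ h z = h v)

theorem mem_back {V : Type} [Fintype V] (E : V → V → Prop) (X K : Finset V) (h : V → ℕ) (v z : V) :
    z ∈ back E X K h v ↔ z ∈ X ∧ z ∈ K ∧ E z v ∧ h z = h v := by
  classical
  unfold back
  rw [Finset.mem_filter]
  exact ⟨fun h => h.2, fun h => ⟨Finset.mem_univ _, h⟩⟩

open Classical in
/-- the reduction of the indegree of `v` -/
noncomputable def ured {V : Type} [Fintype V] (E : V → V → Prop) (X K : Finset V) (h : V → ℕ)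
    (v : V) : ℕ :=
  if v ∈ X ∧ ideg E v < K.card then
    ind (Out E X K v) + (if od E v ≤ X.card then (back E X K h v).card else 0)
  else 0

open Classical in
/-- **Few returning edges.** -/
theorem cov_levels (V : Type) [Fintype V] (E : V → V → Prop) (X K : Finset V) (h : V → ℕ)
    (hloop : ∀ v, ¬ E v v) (hX : Strict (fun v => od E v + ind (v ∉ K)) X)
    (hK : ∀ i, (K.filter (fun v => ideg E v ≤ i + ured E X K h v)).card ≤ i)
    (hlev : ∀ a b, a ∈ X → a ∈ K → b ∈ X → b ∈ K → E a b → h a ≤ h b) : Cov E X K := by
  have hrr : ∀ v, rr E K v = od E v + ind (v ∉ K) := by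
    intro v
    unfold rr
    rw [o0_loopless hloop]
  set H : Finset V := X.filter (fun v => X.card + 1 ≤ rr E K v) with hHdef
  set G : Finset V := K.filter (fun v => K.card ≤ ideg E v) with hGdef
  apply cov_main (Fintype.card V) V E X K H G h rfl _ _ _ _ hlev
  · intro i
    have h2 := hX i
    simp only [hrr]
    exact h2
  · intro x hx hxH
    rw [hHdef, Finset.mem_filter] at hxH
    exact hxH.2
  · intro i
    by_cases hi : K.card + 1 ≤ i
    · have := Finset.card_filter_le K (fun v => c1 E X K H G h v ≤ i)
      omega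
    have h3 : ∀ v ∈ K.filter (fun v => c1 E X K H G h v ≤ i),
        v ∈ K ∧ ideg E v ≤ (i - 1) + ured E X K h v := by
      intro v hv
      rw [Finset.mem_filter] at hv
      have hvG : v ∉ G := by
        intro hvG
        rw [c1_G hvG, i0_loopless hloop] at hv
        rw [hGdef, Finset.mem_filter] at hvG
        omega
      rw [c1_nG hvG, i0_loopless hloop, ind_neg (hloop v)] at hv
      have hvl : ideg E v < K.card := by
        rw [hGdef, Finset.mem_filter] at hvG
        by_contra hcon
        exact hvG ⟨hv.1, by omega⟩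
      refine ⟨hv.1, ?_⟩
      have h4 : uu E X K H h v ≤ ured E X K h v := by
        by_cases hvX : v ∈ X
        · unfold ured
          rw [if_pos ⟨hvX, hvl⟩]
          have h5 : v ∈ H ↔ X.card + 1 ≤ od E v := by
            rw [hHdef, Finset.mem_filter, hrr, ind_neg (not_not.mpr hv.1)]
            exact ⟨fun h => h.2, fun h => ⟨hvX, h⟩⟩
          by_cases hvH : v ∈ H
          · rw [uu_H hvX hvH, ind_neg (hloop v)]
            omega
          · have h6 : od E v ≤ X.card := by
              by_contra hcon
              exact hvH (h5.mpr (by omega))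
            rw [uu_L hvX hvH, if_pos h6]
            have h7 : (backL E X K H h v).card + ind (OutH E X K H h v) ≤
                (back E X K h v).card := by
              by_cases hO : OutH E X K H h v
              · obtain ⟨y, hy1, hy2, hy3, hy4, hy5⟩ := hO
                have hO' : OutH E X K H h v := ⟨y, hy1, hy2, hy3, hy4, hy5⟩
                rw [ind_pos hO']
                have h8 : insert y (backL E X K H h v) ⊆ back E X K h v := by
                  intro z hz
                  rw [Finset.mem_insert] at hz
                  rw [mem_back]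
                  rcases hz with rfl | hz
                  · exact ⟨hy1, hy3, hy4, hy5⟩
                  · rw [mem_backL] at hz
                    exact ⟨hz.1, hz.2.2.1, hz.2.2.2.1, hz.2.2.2.2⟩
                have h9 := Finset.card_le_card h8
                rw [Finset.card_insert_of_notMem] at h9
                · exact h9
                · rw [mem_backL]
                  exact fun h => h.2.1 hy2
              · rw [ind_neg hO]
                apply Finset.card_le_card
                intro z hz
                rw [mem_backL] at hz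
                rw [mem_back]
                exact ⟨hz.1, hz.2.2.1, hz.2.2.2.1, hz.2.2.2.2⟩
            omega
        · rw [uu_nX hvX, ind_neg (hloop v)]
          exact Nat.zero_le _
      omega
    have h4 : (K.filter (fun v => c1 E X K H G h v ≤ i)).card ≤ i - 1 := by
      refine le_trans (Finset.card_le_card ?_) (hK (i - 1))
      intro v hv
      rw [Finset.mem_filter]
      exact h3 v hv
    exact h4
  · intro v _ hv
    rw [hGdef, Finset.mem_filter] at hv
    rw [i0_loopless hloop]
    exact hv.2

open Classical in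
/-- no low-low vertex lies on a cycle of the digraph induced on `X ∩ K` -/
theorem cov_cycles (V : Type) [Fintype V] (E : V → V → Prop) (X K : Finset V) (h : V → ℕ)
    (hloop : ∀ v, ¬ E v v) (hX : Strict (fun v => od E v + ind (v ∉ K)) X)
    (hK : Strict (fun v => ideg E v + ind (v ∉ X)) K)
    (hlev : ∀ a b, a ∈ X → a ∈ K → b ∈ X → b ∈ K → E a b →
      h a < h b ∨ (h a = h b ∧ (X.card < od E b ∨ K.card ≤ ideg E b))) : Cov E X K := by
  apply cov_levels V E X K h hloop hX
  · intro i
    have h0 := hK (i + 1)
    refine le_trans (Finset.card_le_card ?_) h0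
    intro v hv
    rw [Finset.mem_filter] at hv ⊢
    refine ⟨hv.1, ?_⟩
    show ideg E v + ind (v ∉ X) ≤ i + 1
    have h1 := hv.2
    unfold ured at h1
    by_cases hvX : v ∈ X ∧ ideg E v < K.card
    · rw [if_pos hvX] at h1
      rw [ind_neg (not_not.mpr hvX.1)]
      have h2 := ind_le (Out E X K v)
      by_cases hod : od E v ≤ X.card
      · rw [if_pos hod] at h1
        have h3 : back E X K h v = ∅ := by
          rw [Finset.eq_empty_iff_forall_notMem]
          intro z hz
          rw [mem_back] at hz
          have := hlev z v hz.1 hz.2.1 hvX.1 hv.1 hz.2.2.1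
          omega
        rw [h3, Finset.card_empty] at h1
        omega
      · rw [if_neg hod] at h1
        omega
    · rw [if_neg hvX] at h1
      have := ind_le (v ∉ X)
      omega
  · intro a b h1 h2 h3 h4 h5
    rcases hlev a b h1 h2 h3 h4 h5 with h6 | h6
    · exact h6.le
    · exact h6.1.le

/-- `cov_levels` with an explicit reduction `r` -/
theorem cov_red {V : Type} [Fintype V] [DecidableEq V] (E : V → V → Prop) [DecidableRel E]
    (X K : Finset V) (h r : V → ℕ) (hloop : ∀ v, ¬ E v v)
    (hX : ∀ i, (X.filter (fun v => od E v + (if v ∈ K then 0 else 1) ≤ i)).card ≤ i - 1)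
    (hK : ∀ i, (K.filter (fun v => ideg E v ≤ i + r v)).card ≤ i)
    (hlev : ∀ a ∈ X ∩ K, ∀ b ∈ X ∩ K, E a b → h a ≤ h b)
    (hr : ∀ v ∈ X ∩ K, ideg E v < K.card → (if ∃ e ∈ K \ X, E e v then 1 else 0) +
      (if od E v ≤ X.card then ((X ∩ K).filter (fun z => E z v ∧ h z = h v)).card else 0) ≤ r v) :
    Cov E X K := by
  apply cov_levels V E X K h hloop
  · intro i
    refine le_trans (Finset.card_le_card ?_) (hX i)
    intro v hv
    rw [Finset.mem_filter] at hv ⊢
    refine ⟨hv.1, ?_⟩
    have h1 : od E v + ind (v ∉ K) ≤ i := hv.2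
    by_cases h2 : v ∈ K
    · rw [if_pos h2]
      omega
    · rw [if_neg h2]
      rw [ind_pos h2] at h1
      exact h1
  · intro i
    refine le_trans (Finset.card_le_card ?_) (hK i)
    intro v hv
    rw [Finset.mem_filter] at hv ⊢
    refine ⟨hv.1, ?_⟩
    have h5 := hv.2
    refine le_trans h5 ?_
    apply Nat.add_le_add_left
    unfold ured
    by_cases h6 : v ∈ X ∧ ideg E v < K.card
    · rw [if_pos h6]
      have h8 := hr v (Finset.mem_inter.mpr ⟨h6.1, hv.1⟩) h6.2
      refine le_trans (Nat.add_le_add ?_ ?_) h8
      · by_cases h9 : Out E X K v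
        · obtain ⟨e, he1, he2, he3⟩ := h9
          rw [if_pos ⟨e, Finset.mem_sdiff.mpr ⟨he1, he2⟩, he3⟩]
          exact ind_le _
        · rw [ind_neg h9]
          exact Nat.zero_le _
      · by_cases h7 : od E v ≤ X.card
        · rw [if_pos h7, if_pos h7]
          apply Finset.card_le_card
          intro z hz
          rw [mem_back] at hz
          rw [Finset.mem_filter, Finset.mem_inter]
          exact ⟨⟨hz.1, hz.2.1⟩, hz.2.2⟩
        · rw [if_neg h7]
          exact Nat.zero_le _
    · rw [if_neg h6]
      exact Nat.zero_le _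
  · intro a b ha ha' hb hb' hab
    exact hlev a (Finset.mem_inter.mpr ⟨ha, ha'⟩) b (Finset.mem_inter.mpr ⟨hb, hb'⟩) hab

/-- `cov_red` with rows and columns exchanged -/
theorem cov_red' {V : Type} [Fintype V] [DecidableEq V] (E : V → V → Prop) [DecidableRel E]
    (X K : Finset V) (h r : V → ℕ) (hloop : ∀ v, ¬ E v v)
    (hK : ∀ i, (K.filter (fun v => ideg E v + (if v ∈ X then 0 else 1) ≤ i)).card ≤ i - 1)
    (hX : ∀ i, (X.filter (fun v => od E v ≤ i + r v)).card ≤ i)
    (hlev : ∀ a ∈ X ∩ K, ∀ b ∈ X ∩ K, E a b → h b ≤ h a)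
    (hr : ∀ v ∈ X ∩ K, od E v < X.card → (if ∃ e ∈ X \ K, E v e then 1 else 0) +
      (if ideg E v ≤ K.card then ((X ∩ K).filter (fun z => E v z ∧ h z = h v)).card else 0) ≤ r v) :
    Cov E X K := by
  apply flip_iff.mp
  apply cov_red (fun a b => E b a) K X h r hloop hK hX
  · intro a ha b hb hab
    rw [Finset.inter_comm] at ha hb
    exact hlev b hb a ha hab
  · intro v hv hvX
    rw [Finset.inter_comm] at hv
    have h1 := hr v hv hvX
    rw [Finset.inter_comm] at h1
    exact h1

end Pool.Agent.NashL
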